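import Pool.Agent.Helper57.ZF.Goals

/-!
# Packet PRANG of project ZF (MP_ef0af8_co)
-/

set_option autoImplicit false

namespace Pool.Agent.Helper39.ZF

open Pool.Agent.Helper57.ZF

section

variable {d : ℕ} (e : Fin d ⊕ Fin d ≃ Fin (2 * d))

/-- The vector with the given halves. -/
noncomputable def mk (x y : EuclideanSpace ℝ (Fin d)) : EuclideanSpace ℝ (Fin (2 * d)) :=
  WithLp.toLp 2 (fun k => Sum.elim (fun i => x i) (fun i => y i) (e.symm k))

theorem slc_inl_mk (x y : EuclideanSpace ℝ (Fin d)) : slc d e Sum.inl (mk e x y) = x := by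
  ext i
  show Sum.elim (fun i => x i) (fun i => y i) (e.symm (e (Sum.inl i))) = x i
  rw [Equiv.symm_apply_apply]
  rfl

theorem slc_inr_mk (x y : EuclideanSpace ℝ (Fin d)) : slc d e Sum.inr (mk e x y) = y := by
  ext i
  show Sum.elim (fun i => x i) (fun i => y i) (e.symm (e (Sum.inr i))) = y i
  rw [Equiv.symm_apply_apply]
  rfl

theorem slc_sub (σ : Fin d → Fin d ⊕ Fin d) (v w : EuclideanSpace ℝ (Fin (2 * d))) :
    slc d e σ (v - w) = slc d e σ v - slc d e σ w := by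
  ext i
  rfl

theorem norm_sq (v : EuclideanSpace ℝ (Fin (2 * d))) :
    ‖v‖ ^ 2 = ‖slc d e Sum.inl v‖ ^ 2 + ‖slc d e Sum.inr v‖ ^ 2 := by
  rw [EuclideanSpace.norm_sq_eq, EuclideanSpace.norm_sq_eq, EuclideanSpace.norm_sq_eq,
    ← Equiv.sum_comp e, Fintype.sum_sum_type]
  rfl

theorem norm_inl_le (v : EuclideanSpace ℝ (Fin (2 * d))) : ‖slc d e Sum.inl v‖ ≤ ‖v‖ := by
  have h := norm_sq e v
  have h1 := sq_nonneg ‖slc d e Sum.inr v‖
  by_contra hc
  push Not at hc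
  nlinarith [norm_nonneg v]

theorem norm_inr_le (v : EuclideanSpace ℝ (Fin (2 * d))) : ‖slc d e Sum.inr v‖ ≤ ‖v‖ := by
  have h := norm_sq e v
  have h1 := sq_nonneg ‖slc d e Sum.inl v‖
  by_contra hc
  push Not at hc
  nlinarith [norm_nonneg v]

end

theorem PRANG : G_PRANG := by
  intro d e V V' A A' κ hκ hA hA' hV hV' hang
  have hd : (0 : ℝ) ≤ d := Nat.cast_nonneg d
  have hAx : ∀ x, ‖A x‖ ≤ d * ‖x‖ := fun x =>
    (A.le_opNorm x).trans (mul_le_mul_of_nonneg_right hA (norm_nonneg _))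
  have hA'x : ∀ x, ‖A' x‖ ≤ d * ‖x‖ := fun x =>
    (A'.le_opNorm x).trans (mul_le_mul_of_nonneg_right hA' (norm_nonneg _))
  have hne : (V' : Set (EuclideanSpace ℝ (Fin (2 * d)))).Nonempty := ⟨0, V'.zero_mem⟩
  -- (1)
  have h1 : ∀ x, Metric.infDist (mk e x (A x)) (V' : Set (EuclideanSpace ℝ (Fin (2 * d)))) ≤
      ‖(A - A') x‖ := by
    intro x
    have hm : mk e x (A' x) ∈ (V' : Set (EuclideanSpace ℝ (Fin (2 * d)))) := by
      show mk e x (A' x) ∈ V'
      rw [hV', slc_inl_mk, slc_inr_mk]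
    refine (Metric.infDist_le_dist_of_mem hm).trans (le_of_eq ?_)
    rw [dist_eq_norm]
    have h := norm_sq e (mk e x (A x) - mk e x (A' x))
    rw [slc_sub, slc_sub, slc_inl_mk, slc_inl_mk, slc_inr_mk, slc_inr_mk, sub_self, norm_zero] at h
    have h2 : ‖mk e x (A x) - mk e x (A' x)‖ ^ 2 = ‖(A - A') x‖ ^ 2 := by
      rw [h, sub_apply]; ring
    exact (sq_eq_sq₀ (norm_nonneg _) (norm_nonneg _)).mp h2
  -- (2)
  have h2 : ∀ x, ‖(A - A') x‖ ≤
      (1 + d) * Metric.infDist (mk e x (A x)) (V' : Set (EuclideanSpace ℝ (Fin (2 * d)))) := by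
    intro x
    have hpos : (0 : ℝ) < 1 + d := by linarith
    rw [← div_le_iff₀' hpos, Metric.le_infDist hne]
    intro v' hv'
    have hv'' : slc d e Sum.inr v' = A' (slc d e Sum.inl v') := (hV' v').mp hv'
    rw [div_le_iff₀' hpos, dist_eq_norm]
    have e1 : ‖x - slc d e Sum.inl v'‖ ≤ ‖mk e x (A x) - v'‖ := by
      have := norm_inl_le e (mk e x (A x) - v')
      rwa [slc_sub, slc_inl_mk] at this
    have e2 : ‖A x - A' (slc d e Sum.inl v')‖ ≤ ‖mk e x (A x) - v'‖ := by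
      have := norm_inr_le e (mk e x (A x) - v')
      rwa [slc_sub, slc_inr_mk, hv''] at this
    have e3 : (A - A') x = (A x - A' (slc d e Sum.inl v')) - A' (x - slc d e Sum.inl v') := by
      rw [sub_apply, map_sub]; abel
    rw [e3]
    calc _ ≤ ‖A x - A' (slc d e Sum.inl v')‖ + ‖A' (x - slc d e Sum.inl v')‖ := norm_sub_le _ _
      _ ≤ ‖mk e x (A x) - v'‖ + d * ‖mk e x (A x) - v'‖ :=
        add_le_add e2 ((hA'x _).trans (mul_le_mul_of_nonneg_left e1 hd))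
      _ = _ := by ring
  -- (3)
  have h3 : ∀ x, ‖x‖ ≤ ‖mk e x (A x)‖ ∧ ‖mk e x (A x)‖ ≤ (1 + d) * ‖x‖ := by
    intro x
    refine ⟨?_, ?_⟩
    · have := norm_inl_le e (mk e x (A x))
      rwa [slc_inl_mk] at this
    · have h := norm_sq e (mk e x (A x))
      rw [slc_inl_mk, slc_inr_mk] at h
      have hb := hAx x
      have hx := norm_nonneg x
      have hb2 : ‖A x‖ ^ 2 ≤ (d * ‖x‖) ^ 2 := by
        have := norm_nonneg (A x)
        nlinarith
      have h4 : ‖mk e x (A x)‖ ^ 2 ≤ ((1 + d) * ‖x‖) ^ 2 := by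
        rw [h]
        nlinarith [mul_nonneg hd (sq_nonneg ‖x‖)]
      exact le_of_sq_le_sq'' (by positivity) h4
  have hmk : ∀ (c : ℝ) x, c • mk e x (A x) = mk e (c • x) (A (c • x)) := by
    intro c x
    rw [map_smul]
    ext k
    show c * Sum.elim (fun i => x i) (fun i => (A x) i) (e.symm k) =
      Sum.elim (fun i => (c • x) i) (fun i => (c • A x) i) (e.symm k)
    rcases e.symm k with i | i <;> rfl
  have hmem : ∀ x, mk e x (A x) ∈ V := fun x => by rw [hV, slc_inl_mk, slc_inr_mk]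
  have key : ∀ x z, x ≠ 0 → z ≠ 0 →
      ‖(A - A') x‖ * ‖z‖ ≤ (1 + d) ^ 2 * κ * ‖(A - A') z‖ * ‖x‖ := by
    intro x z hx hz
    have hxp : 0 < ‖x‖ := norm_pos_iff.mpr hx
    have hzp : 0 < ‖z‖ := norm_pos_iff.mpr hz
    obtain ⟨hx1, hx2⟩ := h3 x
    obtain ⟨hz1, hz2⟩ := h3 z
    set nv := ‖mk e x (A x)‖ with hnv
    set nw := ‖mk e z (A z)‖ with hnw
    have hnvp : 0 < nv := lt_of_lt_of_le hxp hx1
    have hnwp : 0 < nw := lt_of_lt_of_le hzp hz1
    have hu1 : ‖mk e (nv⁻¹ • x) (A (nv⁻¹ • x))‖ = 1 := by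
      rw [← hmk, norm_smul, norm_inv, Real.norm_of_nonneg hnvp.le, ← hnv]
      exact inv_mul_cancel₀ hnvp.ne'
    have hu2 : ‖mk e (nw⁻¹ • z) (A (nw⁻¹ • z))‖ = 1 := by
      rw [← hmk, norm_smul, norm_inv, Real.norm_of_nonneg hnwp.le, ← hnw]
      exact inv_mul_cancel₀ hnwp.ne'
    have hk := hang _ (hmem (nv⁻¹ • x)) _ (hmem (nw⁻¹ • z)) hu1 hu2
    have h4 : ‖(A - A') (nv⁻¹ • x)‖ ≤ (1 + d) * (κ * ‖(A - A') (nw⁻¹ • z)‖) :=
      (h2 _).trans (mul_le_mul_of_nonneg_left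
        (hk.trans (mul_le_mul_of_nonneg_left (h1 _) hκ)) (by linarith))
    rw [map_smul, map_smul, norm_smul, norm_smul, norm_inv, norm_inv,
      Real.norm_of_nonneg hnvp.le, Real.norm_of_nonneg hnwp.le] at h4
    have h5 : ‖(A - A') x‖ * nw ≤ (1 + d) * κ * ‖(A - A') z‖ * nv := by
      have h6 := mul_le_mul_of_nonneg_left h4 (mul_pos hnvp hnwp).le
      have e1 : nv * nw * (nv⁻¹ * ‖(A - A') x‖) = ‖(A - A') x‖ * nw := by
        field_simp
      have e2 : nv * nw * ((1 + d) * (κ * (nw⁻¹ * ‖(A - A') z‖))) =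
          (1 + d) * κ * ‖(A - A') z‖ * nv := by
        field_simp
      rw [e1, e2] at h6
      exact h6
    calc _ ≤ ‖(A - A') x‖ * nw := mul_le_mul_of_nonneg_left hz1 (norm_nonneg _)
      _ ≤ (1 + d) * κ * ‖(A - A') z‖ * nv := h5
      _ ≤ (1 + d) * κ * ‖(A - A') z‖ * ((1 + d) * ‖x‖) :=
        mul_le_mul_of_nonneg_left hx2 (by positivity)
      _ = _ := by ring
  intro z
  by_cases hz : z = 0
  · rw [hz, norm_zero, mul_zero, map_zero, norm_zero, mul_zero]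
  · have hzp : 0 < ‖z‖ := norm_pos_iff.mpr hz
    rw [← le_div_iff₀ hzp]
    refine ContinuousLinearMap.opNorm_le_bound _ (by positivity) fun x => ?_
    by_cases hx : x = 0
    · rw [hx, map_zero, norm_zero, mul_zero]
    · rw [div_mul_eq_mul_div, le_div_iff₀ hzp]
      exact key x z hx hz
where
  le_of_sq_le_sq'' {a b : ℝ} (hb : 0 ≤ b) (h : a ^ 2 ≤ b ^ 2) : a ≤ b := by
    by_contra hc
    push Not at hc
    nlinarith

end Pool.Agent.Helper39.ZF
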